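import Pool.Agent.Q50.MS.Defs
import Pool.Agent.Q50.GM.Main
import Pool.Agent.Q50.GN.Mat

/-!
# Representations of finite groups in any characteristic with the same traces at most elements
-/

set_option autoImplicit false
set_option maxHeartbeats 4000000
set_option synthInstance.maxHeartbeats 400000
set_option linter.unusedSectionVars false
set_option linter.ambiguousOpen false

universe u

open NumberField Matrix

namespace Pool.Agent.Q50.ES.MS

variable {k : Type u} [Field k]

/-- **Traces at most elements.** Let `ρ₁`, `ρ₂` be representations of dimension `n ≥ 1` of a finite group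
`G` over any field, `ρ₁` absolutely irreducible. If the traces are different for less than
`|G| / (2 n ^ 2)` elements, then `ρ₁` and `ρ₂` are isomorphic. -/
theorem iso_of_traces {G : Type} [Group G] [Finite G] {n : ℕ} (hn : 0 < n)
    (ρ₁ ρ₂ : G →* Matrix (Fin n) (Fin n) k)
    (hspan : ∀ a, a ∈ Submodule.span k (Set.range ρ₁))
    (hcard : 2 * n ^ 2 * {g : G | (ρ₁ g).trace ≠ (ρ₂ g).trace}.ncard < Nat.card G) :
    ∃ P : GL (Fin n) k, ∀ g, ρ₂ g = (P : Matrix (Fin n) (Fin n) k) * ρ₁ g *
      ((P⁻¹ : GL (Fin n) k) : Matrix (Fin n) (Fin n) k) := by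
  classical
  have : Nonempty (Fin n) := ⟨⟨0, hn⟩⟩
  let S : Submonoid (Matrix (Fin n) (Fin n) k × Matrix (Fin n) (Fin n) k) :=
    MonoidHom.mrange (ρ₁.prod ρ₂)
  set D : Set G := {g : G | (ρ₁ g).trace ≠ (ρ₂ g).trace} with hD
  obtain ⟨N, hNle, f, hfS, hfspan⟩ : ∃ N ≤ 2 * n ^ 2,
      ∃ f : Fin N → Matrix (Fin n) (Fin n) k × Matrix (Fin n) (Fin n) k,
        (∀ i, f i ∈ S) ∧ Submodule.span k (Set.range f) = Submodule.span k (S : Set (_ × _)) := by
    obtain ⟨f, hfS, hfspan, -⟩ := Submodule.exists_fun_fin_finrank_span_eq k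
      (S : Set (Matrix (Fin n) (Fin n) k × Matrix (Fin n) (Fin n) k))
    refine ⟨_, ?_, f, hfS, hfspan⟩
    have h1 := Submodule.finrank_le (Submodule.span k
      (S : Set (Matrix (Fin n) (Fin n) k × Matrix (Fin n) (Fin n) k)))
    rw [Module.finrank_prod, Module.finrank_matrix] at h1
    simp only [Fintype.card_fin, Module.finrank_self, mul_one] at h1
    nlinarith [h1]
  have hg : ∀ i, ∃ g : G, f i = (ρ₁ g, ρ₂ g) := by
    intro i
    obtain ⟨g, hg⟩ := hfS i
    exact ⟨g, hg.symm⟩
  choose g hg using hg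
  -- an element outside all bad sets
  have hex : ∃ h : G, ∀ i, (ρ₁ (g i * h)).trace = (ρ₂ (g i * h)).trace := by
    by_contra hcon
    push Not at hcon
    have hcover : (Set.univ : Set G) ⊆ ⋃ i : Fin N, (fun h => g i * h) ⁻¹' D := by
      intro h _
      obtain ⟨i, hi⟩ := hcon h
      exact Set.mem_iUnion.2 ⟨i, hi⟩
    have h1 : (Set.univ : Set G).ncard ≤ (⋃ i : Fin N, (fun h => g i * h) ⁻¹' D).ncard :=
      Set.ncard_le_ncard hcover (Set.toFinite _)
    have h2 : (⋃ i : Fin N, (fun h => g i * h) ⁻¹' D).ncard ≤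
        ∑ i : Fin N, ((fun h => g i * h) ⁻¹' D).ncard := by
      have := Set.toFinite (⋃ i : Fin N, (fun h => g i * h) ⁻¹' D)
      rw [Set.ncard_eq_toFinset_card _ this]
      calc this.toFinset.card
          ≤ (Finset.univ.biUnion fun i : Fin N =>
              (Set.toFinite ((fun h => g i * h) ⁻¹' D)).toFinset).card := by
            apply Finset.card_le_card
            intro x hx
            rw [Set.Finite.mem_toFinset, Set.mem_iUnion] at hx
            obtain ⟨i, hi⟩ := hx
            exact Finset.mem_biUnion.2 ⟨i, Finset.mem_univ _, by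
              rw [Set.Finite.mem_toFinset]; exact hi⟩
        _ ≤ ∑ i : Fin N, (Set.toFinite ((fun h => g i * h) ⁻¹' D)).toFinset.card :=
            Finset.card_biUnion_le
        _ = _ := by
            refine Finset.sum_congr rfl fun i _ => ?_
            rw [Set.ncard_eq_toFinset_card _ (Set.toFinite _)]
    have h3 : ∀ i, ((fun h => g i * h) ⁻¹' D).ncard = D.ncard := by
      intro i
      have : (fun h => g i * h) ⁻¹' D = (fun h => (g i)⁻¹ * h) '' D := by
        ext x
        constructor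
        · intro hx
          exact ⟨g i * x, hx, by simp⟩
        · rintro ⟨y, hy, rfl⟩
          change g i * ((g i)⁻¹ * y) ∈ D
          rwa [mul_inv_cancel_left]
      rw [this, Set.ncard_image_of_injective _ (mul_right_injective _)]
    rw [Finset.sum_congr rfl fun i _ => h3 i, Finset.sum_const, Finset.card_univ,
      Fintype.card_fin, smul_eq_mul] at h2
    rw [Set.ncard_univ] at h1
    have h4 : N * D.ncard ≤ 2 * n ^ 2 * D.ncard := Nat.mul_le_mul_right _ hNle
    omega
  obtain ⟨h, hh⟩ := hex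
  have hall : ∀ p ∈ S, (ρ₁ h * p.1).trace = (ρ₂ h * p.2).trace := by
    intro p hp
    have hp' : p ∈ Submodule.span k (Set.range f) := by
      rw [hfspan]
      exact Submodule.subset_span hp
    clear hp
    induction hp' using Submodule.span_induction with
    | mem x hx =>
      obtain ⟨i, rfl⟩ := hx
      rw [hg i]
      change (ρ₁ h * ρ₁ (g i)).trace = (ρ₂ h * ρ₂ (g i)).trace
      rw [trace_mul_comm, ← map_mul, trace_mul_comm (ρ₂ h), ← map_mul]
      exact hh i
    | zero => simp
    | add x y hx hy h1 h2 =>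
      rw [Prod.fst_add, Prod.snd_add, mul_add, mul_add, trace_add, trace_add, h1, h2]
    | smul a x hx h1 =>
      rw [Prod.smul_fst, Prod.smul_snd, mul_smul_comm, mul_smul_comm, trace_smul, trace_smul, h1]
  obtain ⟨P, hP⟩ := GN.conj_of_trace_coset S (c := ρ₁ h) (d := ρ₂ h) (c' := ρ₁ h⁻¹) (by
      intro m
      refine Submodule.span_mono ?_ (hspan m)
      rintro _ ⟨x, rfl⟩
      exact ⟨(ρ₁ x, ρ₂ x), ⟨x, rfl⟩, rfl⟩)
    (by rw [← map_mul, mul_inv_cancel, map_one]) hall
  exact ⟨P, fun x => hP (ρ₁ x, ρ₂ x) ⟨x, rfl⟩⟩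

variable (k) in
theorem mostTracesDecide : MostTracesDecide k :=
  fun _ _ _ _ ρ σ hn hspan hcard => iso_of_traces hn ρ σ hspan hcard

theorem Mod.map_mul {F : Fld} (r : Mod k F) {g h : Γ} (hg : g ∈ Gal F) (hh : h ∈ Gal F) :
    r.toFun (g * h) = r.toFun g * r.toFun h := r.mul g hg h hh

/-- The homomorphism given by the restriction of `r` to `Gal(Ω/L)`. -/
def Mod.hom {F L : Fld} (r : Mod k F) (h : F ≤ L) : L.fixingSubgroup →* M2 k where
  toFun x := r.toFun x.1
  map_one' := r.one
  map_mul' x y := r.map_mul (fix_le h x.2) (fix_le h y.2)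

theorem isGalois_omega : IsGalois ℚ Ω := by
  have h1 : Algebra.IsAlgebraic ℚ Ω := by
    refine ⟨fun x => ?_⟩
    obtain ⟨p, hp, hx⟩ := (AlgebraicClosure.isAlgebraic ℚ).isAlgebraic x
    refine ⟨p, hp, ?_⟩
    rw [Polynomial.aeval_def] at hx ⊢
    rw [← hx]
    congr 1
  exact { to_isSeparable := inferInstance,
          to_normal := { splits' := fun x => IsAlgClosed.splits _ } }

/-- **The 7/8 theorem.** If the traces of the Frobenius elements agree for a set of places of upper
density greater than `7/8` and the first representation is irreducible, the two are isomorphic. -/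
theorem iso_of_density (T : Data k) (hT : T.Chebotarev)
    (hfrob : ∀ (L : Fld) (w : T.place L), T.frob w ∈ Gal L) {F L : Fld} (hFL : F ≤ L)
    (r : Mod k F) (s : Mod k L) (hirr : ∀ t, InSpan2 {t | ∃ g ∈ Gal L, t = r.toFun g} t)
    (hd : UpperDensityAbove T.norm (7 / 8)
      {w : T.place L | (r.toFun (T.frob w)).trace = (s.toFun (T.frob w)).trace}) :
    IsoM L r s := by
  classical
  obtain ⟨M₁, hM₁, hFM₁, h₁⟩ := r.open_ker
  obtain ⟨M₂, hM₂, hLM₂, h₂⟩ := s.open_ker
  let M : Fld := M₁ ⊔ M₂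
  have hMfin : FiniteDimensional ℚ M := IntermediateField.finiteDimensional_sup M₁ M₂
  have hLM : L ≤ M := hLM₂.trans le_sup_right
  let φ : L.fixingSubgroup →* M2 k × M2 k := (r.hom hFL).prod (s.hom le_rfl)
  have hker : M.fixingSubgroup.subgroupOf L.fixingSubgroup ≤ φ.ker := by
    intro x hx
    have hx' : x.1 ∈ Gal M := hx
    rw [MonoidHom.mem_ker]
    exact Prod.ext (h₁ _ (fix_le le_sup_left hx')) (h₂ _ (fix_le le_sup_right hx'))
  have hidx : M.fixingSubgroup.FiniteIndex := by
    have hgal : IsGalois ℚ Ω := isGalois_omega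
    have hfd : FiniteDimensional ℚ M := hMfin
    refine ⟨?_⟩
    rw [← IntermediateField.finrank_eq_fixingSubgroup_index]
    exact Module.finrank_pos.ne'
  have hidx2 : φ.ker.FiniteIndex := Subgroup.finiteIndex_of_le hker
  have hfin : Finite (L.fixingSubgroup ⧸ φ.ker) := Subgroup.finite_quotient_of_finiteIndex
  let ρ₁ : (L.fixingSubgroup ⧸ φ.ker) →* M2 k := QuotientGroup.lift φ.ker (r.hom hFL) (by
    intro x hx
    exact congrArg Prod.fst ((MonoidHom.mem_ker).1 hx))
  let ρ₂ : (L.fixingSubgroup ⧸ φ.ker) →* M2 k := QuotientGroup.lift φ.ker (s.hom le_rfl) (by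
    intro x hx
    exact congrArg Prod.snd ((MonoidHom.mem_ker).1 hx))
  let q : Γ → (L.fixingSubgroup ⧸ φ.ker) := fun x =>
    if h : x ∈ L.fixingSubgroup then QuotientGroup.mk ⟨x, h⟩ else 1
  have hq : ∀ x (h : x ∈ L.fixingSubgroup), q x = QuotientGroup.mk ⟨x, h⟩ := by
    intro x h
    simp only [q, dif_pos h]
  have hρ₁ : ∀ x ∈ Gal L, ρ₁ (q x) = r.toFun x := by
    intro x hx
    rw [hq x hx]
    rfl
  have hρ₂ : ∀ x ∈ Gal L, ρ₂ (q x) = s.toFun x := by
    intro x hx
    rw [hq x hx]
    rfl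
  let C : Set (L.fixingSubgroup ⧸ φ.ker) := {c | (ρ₁ c).trace = (ρ₂ c).trace}
  have hC := hT L M (L.fixingSubgroup ⧸ φ.ker) q C (7 / 8) hMfin hLM (by
      intro x hx
      rw [hq x (fix_le hLM hx)]
      rw [QuotientGroup.eq_one_iff]
      exact hker hx) (by
      intro g hg h hh
      rw [hq g hg, hq h hh, hq (g * h) (gal_mul hg hh)]
      rfl) (by
      intro c
      obtain ⟨x, rfl⟩ := QuotientGroup.mk_surjective c
      exact ⟨x.1, x.2, hq x.1 x.2⟩) (by
      intro c hc g
      change (ρ₁ (g * c * g⁻¹)).trace = (ρ₂ (g * c * g⁻¹)).trace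
      have hc' : (ρ₁ c).trace = (ρ₂ c).trace := hc
      rw [map_mul, map_mul, map_mul, map_mul, trace_mul_comm, ← mul_assoc, ← map_mul,
        inv_mul_cancel, map_one, one_mul, hc', trace_mul_comm (ρ₂ g * ρ₂ c), ← mul_assoc,
        ← map_mul, inv_mul_cancel, map_one, one_mul]) (by
      have : {w : T.place L | q (T.frob w) ∈ C} =
          {w : T.place L | (r.toFun (T.frob w)).trace = (s.toFun (T.frob w)).trace} := by
        ext w
        change (ρ₁ (q (T.frob w))).trace = (ρ₂ (q (T.frob w))).trace ↔ _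
        rw [hρ₁ _ (hfrob L w), hρ₂ _ (hfrob L w)]
        rfl
      rw [this]
      exact hd)
  obtain ⟨P, hP⟩ := iso_of_traces (n := 2) (by norm_num) ρ₁ ρ₂ (by
      intro a
      refine Submodule.span_mono ?_ (hirr a)
      rintro _ ⟨g, hg, rfl⟩
      exact ⟨q g, hρ₁ g hg⟩) (by
      have h3 : {g | (ρ₁ g).trace ≠ (ρ₂ g).trace} = Cᶜ := rfl
      rw [h3]
      have h4 := Set.ncard_add_ncard_compl C
      have h5 : (C.ncard : ℝ) + (Cᶜ.ncard : ℝ) = (Nat.card (L.fixingSubgroup ⧸ φ.ker) : ℝ) := by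
        exact_mod_cast h4
      have h6 : (8 : ℝ) * (Cᶜ.ncard : ℝ) < (Nat.card (L.fixingSubgroup ⧸ φ.ker) : ℝ) := by
        linarith
      have h7 : 8 * Cᶜ.ncard < Nat.card (L.fixingSubgroup ⧸ φ.ker) := by exact_mod_cast h6
      omega)
  refine ⟨P, fun g hg => ?_⟩
  rw [← hρ₁ g hg, ← hρ₂ g hg]
  exact hP (q g)

namespace Data

variable {T : Data k}

theorem matched_self (hT : T.Facts) {F : Fld} (r : Mod k F) (h : T.Modular r) :
    T.Matched F r := by
  obtain ⟨f, P, hP⟩ := h
  refine ⟨f, 1, by norm_num, Filter.Frequently.of_forall fun x => ?_⟩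
  have h1 : T.Agree r f ∩ {w | T.norm w ≤ x} = {w | T.norm w ≤ x} := by
    refine Set.inter_eq_right.2 fun w _ => ?_
    change (r.toFun (T.frob w)).trace = ((T.red f).toFun (T.frob w)).trace
    rw [hP _ (hT.frob_mem F w), trace_mul_comm, ← mul_assoc, ← Units.val_mul, inv_mul_cancel,
      Units.val_one, one_mul]
  rw [h1, one_mul]

/-- **One representation.** -/
theorem modular_iff (hT : T.Facts) {F : Fld} (r : Mod k F) (hr : Irreducible r) :
    T.Modular r ↔ T.Matched F r := by
  refine ⟨matched_self hT r, ?_⟩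
  rintro ⟨f, hf⟩
  exact ⟨f, iso_of_density T hT.chebotarev hT.frob_mem le_rfl r _ hr hf⟩

/-- **One representation, over a tower.** -/
theorem modular_iff_tower (hT : T.Facts) {F : Fld} (hF : TotallyReal F) (r : Mod k F)
    (hr : Good r) (hs : ¬ T.Solvable r) :
    T.Modular r ↔ ∃ L, GM.Tower F L ∧ T.Matched L r := by
  constructor
  · exact fun h => ⟨F, Relation.ReflTransGen.refl, matched_self hT r h⟩
  · rintro ⟨L, hL, f, hf⟩
    exact hT.descent F L r f hF hr hs hL (iso_of_density T hT.chebotarev hT.frob_mem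
      (GM.tower_le hL) r _ (hT.restriction F L r hr hs hL) hf)

/-- **All representations.** -/
theorem all_iff (hT : T.Facts) {M₀ : Fld} (hM : TotallyReal M₀) (hG : SolvableGalois M₀) :
    (∀ F, TotallyReal F → ∀ r : Mod k F, Good r → T.Modular r) ↔
      ∀ F, TotallyReal F → M₀ ≤ F → ∀ r : Mod k F, Good r → ¬ T.Solvable r → T.Simple r →
        ∃ L, GM.Tower F L ∧ T.Matched L r := by
  constructor
  · intro h F hF _ r hr hs _
    exact (modular_iff_tower hT hF r hr hs).1 (h F hF r hr)
  · intro h F hF r hr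
    by_cases hs : T.Solvable r
    · exact hT.known F r hF hr hs
    obtain ⟨L, hL, hLr, hML, r', hr', hg, hns, hsim⟩ := hT.trivialize F M₀ r hF hM hG hr hs
    obtain ⟨f, P, hP⟩ := (modular_iff_tower hT hLr r' hg hns).2 (h L hLr hML r' hg hns hsim)
    refine hT.descent F L r f hF hr hs hL ⟨P, fun g hg => ?_⟩
    rw [hP g hg, hr']

end Data

end Pool.Agent.Q50.ES.MS
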