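import Pool.Agent.Q50.GM.Defs

/-!
# Modularity of Galois representations in characteristic p: data and known facts
-/

set_option autoImplicit false

universe u

open NumberField

namespace Pool.Agent.Q50.ES.MS

open GM (Tower)

/-- The set `S` has upper density greater than `θ`, with respect to `norm`. -/
def UpperDensityAbove {X : Type} (norm : X → ℕ) (θ : ℝ) (S : Set X) : Prop :=
  ∃ δ : ℝ, θ < δ ∧ ∃ᶠ x : ℕ in Filter.atTop,
    δ * ({w | norm w ≤ x}.ncard : ℝ) ≤ ((S ∩ {w | norm w ≤ x}).ncard : ℝ)

variable (k : Type u) [Field k]

/-- The elements on which the traces of `ρ` and `σ` are different. -/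
def Differ {G : Type} [Group G] {n : ℕ} (ρ σ : G →* Matrix (Fin n) (Fin n) k) : Set G :=
  {g | (ρ g).trace ≠ (σ g).trace}

/-- The representations `ρ`, `σ` are isomorphic. -/
def Conj {G : Type} [Group G] {n : ℕ} (ρ σ : G →* Matrix (Fin n) (Fin n) k) : Prop :=
  ∃ P : GL (Fin n) k, ∀ g, σ g = (P : Matrix (Fin n) (Fin n) k) * ρ g *
    ((P⁻¹ : GL (Fin n) k) : Matrix (Fin n) (Fin n) k)

/-- Representations of dimension `n ≥ 1` of a finite group over `k`, the first one absolutely irreducible,
whose traces differ on less than `|G| / (2 n ^ 2)` elements are isomorphic. -/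
def MostTracesDecide : Prop :=
  ∀ (G : Type) [Group G] [Finite G] (n : ℕ) (ρ σ : G →* Matrix (Fin n) (Fin n) k), 0 < n →
    (∀ a, a ∈ Submodule.span k (Set.range ρ)) →
    2 * n ^ 2 * (Differ k ρ σ).ncard < Nat.card G → Conj k ρ σ

/-- The two by two matrices. -/
abbrev M2 := Matrix (Fin 2) (Fin 2) k

variable {k}

/-- `m` is the product of `s` and `t`. -/
def IsProd2 (m s t : M2 k) : Prop := m = s * t

/-- `t` is in the span of `S`. -/
def InSpan2 (S : Set (M2 k)) (t : M2 k) : Prop := t ∈ Submodule.span k S

variable (k)

/-- A representation of the Galois group `Gal(Ω/F)` on `k²`, continuous for the discrete topology of `k`: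
it is trivial on some `Gal(Ω/M)`, `M` finite over `ℚ`. Only the values on `Gal(Ω/F)` matter. -/
structure Mod (F : Fld) where
  /-- the matrices -/
  toFun : Γ → M2 k
  one : toFun 1 = 1
  mul : ∀ g ∈ Gal F, ∀ h ∈ Gal F, IsProd2 (toFun (g * h)) (toFun g) (toFun h)
  open_ker : ∃ M : Fld, FiniteDimensional ℚ M ∧ F ≤ M ∧ ∀ x ∈ Gal M, toFun x = 1

variable {k}

/-- The representations `r` of `Gal(Ω/F)` and `s` of `Gal(Ω/F')` are isomorphic on `Gal(Ω/L)`. -/
def IsoM (L : Fld) {F F' : Fld} (r : Mod k F) (s : Mod k F') : Prop :=
  ∃ P : GL (Fin 2) k, ∀ g ∈ Gal L,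
    s.toFun g = (P : M2 k) * r.toFun g * ((P⁻¹ : GL (Fin 2) k) : M2 k)

/-- The representation is absolutely irreducible. -/
def Irreducible {F : Fld} (r : Mod k F) : Prop := ∀ t, InSpan2 {t | ∃ g ∈ Gal F, t = r.toFun g} t

/-- The representation is totally odd: the determinants of the complex conjugations (the involutions)
are `-1`. -/
def TotallyOdd {F : Fld} (r : Mod k F) : Prop :=
  ∀ c ∈ Gal F, c * c = 1 → c ≠ 1 → (r.toFun c).det = -1

/-- The representations in question: irreducible and totally odd. -/
def Good {F : Fld} (r : Mod k F) : Prop := Irreducible r ∧ TotallyOdd r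

variable (k)

/-- Modular forms and Galois representations in characteristic `p`; `k` is an algebraic closure of the
field with `p` elements, `p ≥ 7`. `Form F`, `F` totally real: the cuspidal Hilbert eigenforms over
`F` of weights at least 2 of the same parity, with an embedding of the Hecke field into an algebraic
closure of `ℚ_p` (none if `F` is not a totally real number field); `red f`: the semisimplified
reduction of the `p`-adic representation of `f`; `Solvable r`: the image of `r` is a solvable group;
`Simple r`: `r` is unramified at all finite places, trivial on the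
decomposition groups above `p`, and its determinant is the cyclotomic character mod `p`. `place L`:
the finite places of `L`; `norm w`: the number of elements of the residue field of `w`; `frob w`: a
Frobenius element of `w` in `Gal(Ω/L)`. -/
structure Data where
  /-- Hilbert eigenforms -/
  Form : Fld → Type u
  /-- the reduction of the Galois representation -/
  red : ∀ {F}, Form F → Mod k F
  /-- solvable image -/
  Solvable : ∀ {F}, Mod k F → Prop
  /-- unramified, trivial above `p`, cyclotomic determinant -/
  Simple : ∀ {F}, Mod k F → Prop
  /-- the finite places -/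
  place : Fld → Type
  /-- the norm -/
  norm : ∀ {L}, place L → ℕ
  /-- a Frobenius element -/
  frob : ∀ {L}, place L → Γ

namespace Data

variable {k} (T : Data k)

/-- The representation is modular. -/
def Modular {F : Fld} (r : Mod k F) : Prop := ∃ f : T.Form F, IsoM F r (T.red f)

/-- The places of `L` whose Frobenius elements have the same trace on `r` and on `red f`. -/
def Agree {F L : Fld} (r : Mod k F) (f : T.Form L) : Set (T.place L) :=
  {w | (r.toFun (T.frob w)).trace = ((T.red f).toFun (T.frob w)).trace}

/-- Over `L` some eigenform has the same traces as `r` for a set of places of upper density greater than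
`7/8`. -/
def Matched {F : Fld} (L : Fld) (r : Mod k F) : Prop :=
  ∃ f : T.Form L, UpperDensityAbove T.norm (7 / 8) (T.Agree r f)

/-- Known (Chebotarev density theorem): let `q` be a homomorphism of `Gal(Ω/F)` onto the finite group
`G`, trivial on `Gal(Ω/M)`. If the places of `F` whose Frobenius elements are mapped to the set `C`, a
union of conjugacy classes, have upper density greater than `θ`, then `θ |G| < |C|`. -/
def Chebotarev : Prop :=
  ∀ (F M : Fld) (G : Type) [Group G] [Finite G] (q : Γ → G) (C : Set G) (θ : ℝ),
    FiniteDimensional ℚ M → F ≤ M → (∀ x ∈ Gal M, q x = 1) →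
    (∀ g ∈ Gal F, ∀ h ∈ Gal F, q (g * h) = q g * q h) → (∀ c, ∃ g ∈ Gal F, q g = c) →
    (∀ c ∈ C, ∀ g, g * c * g⁻¹ ∈ C) →
    UpperDensityAbove T.norm θ {w : T.place F | q (T.frob w) ∈ C} →
    θ * (Nat.card G : ℝ) < (C.ncard : ℝ)

/-- Known (Khare-Wintenberger, Snowden; Taylor-Wiles, Kisin, Gee; Langlands): let `p ≥ 7`. If the totally
odd irreducible representation `r` over `F` with non-solvable image is modular over the end of a tower,
then it is modular. (It has a geometric lift of weight 2; the lift is modular over the end of the
tower, hence over `F`.) -/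
def SolvableDescent : Prop :=
  ∀ (F L : Fld) (r : Mod k F) (f : T.Form L), TotallyReal F → Good r → ¬ T.Solvable r →
    Tower F L → IsoM L r (T.red f) → T.Modular r

/-- Known (class field theory): let `M₀` be a totally real Galois extension of `ℚ` with solvable group.
Over a suitable field `L ⊇ M₀` at the end of a tower over `F`, a totally odd irreducible
representation with non-solvable image becomes unramified, trivial above `p`, with cyclotomic
determinant; it stays irreducible with non-solvable image. -/
def Trivialize : Prop :=
  ∀ (F M₀ : Fld) (r : Mod k F), TotallyReal F → TotallyReal M₀ → SolvableGalois M₀ → Good r →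
    ¬ T.Solvable r → ∃ L, Tower F L ∧ TotallyReal L ∧ M₀ ≤ L ∧ ∃ r' : Mod k L,
      r'.toFun = r.toFun ∧ Good r' ∧ ¬ T.Solvable r' ∧ T.Simple r'

/-- Known (the Borel subgroups are solvable): the restriction to the end of a tower of an irreducible
representation with non-solvable image is irreducible. -/
def Restriction : Prop :=
  ∀ (F L : Fld) (r : Mod k F), Good r → ¬ T.Solvable r → Tower F L →
    ∀ t, InSpan2 {t | ∃ g ∈ Gal L, t = r.toFun g} t

/-- The known facts. `known` (Langlands, Tunnell, Deligne-Serre): totally odd irreducible
representations with solvable image are modular. -/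
structure Facts : Prop where
  chebotarev : T.Chebotarev
  descent : T.SolvableDescent
  trivialize : T.Trivialize
  restriction : T.Restriction
  frob_mem : ∀ (L : Fld) (w : T.place L), T.frob w ∈ Gal L
  known : ∀ (F : Fld) (r : Mod k F), TotallyReal F → Good r → T.Solvable r → T.Modular r

end Data

end Pool.Agent.Q50.ES.MS
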